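import Pool.Agent.H12.CSP.A.Helper460_CSP.Jo2

set_option autoImplicit false
set_option linter.unusedSectionVars false
set_option linter.unusedSimpArgs false
set_option linter.unusedVariables false

/-!
Magnus: `IA_n` is generated by the partial conjugations and the commutator transvections.
-/

namespace Pool.Agent.H12.SOL

open Pool.Agent.Helper460_OutF Pool.Agent.Helper460_CSP
open FreeGroup (of)
open Pool.Agent.Helper156.OF (SP toAut toAut_gl gl nv gl_nv gl_true Lt SP.map_nv)
open scoped commutatorElement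

variable {ι : Type} [DecidableEq ι]

/-- The generators. -/
def GS (ι : Type) [DecidableEq ι] : Set (MulAut (FreeGroup ι)) :=
  {g | (∃ i j : ι, g = cc i (of j)) ∨ (∃ i j k : ι, g = rr i ⁅(of j : FreeGroup ι), of k⁆)}

/-- The subgroup generated by them. -/
def HH (ι : Type) [DecidableEq ι] : Subgroup (MulAut (FreeGroup ι)) := Subgroup.closure (GS ι)

lemma cc_mem (i : ι) (w : FreeGroup ι) : cc i w ∈ HH ι := by
  induction w using FreeGroup.induction_on with
  | C1 => rw [map_one]; exact one_mem _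
  | of j => exact Subgroup.subset_closure (Or.inl ⟨i, j, rfl⟩)
  | inv_of j ih => rw [map_inv]; exact inv_mem ih
  | mul a b ha hb => rw [map_mul]; exact mul_mem ha hb

lemma rr_conj_cc (i : ι) (u w : FreeGroup ι) :
    rr i (u * w * u⁻¹) = cc i u * rr i w * (cc i u)⁻¹ := by
  rw [cc_eq, map_mul, map_mul, map_inv]
  have h := ll_rr_comm i u w
  have h2 := ll_rr_comm i u (u * w * u⁻¹)
  rw [map_mul, map_mul, map_inv] at h2
  rw [mul_inv_rev]
  calc rr i u * rr i w * (rr i u)⁻¹
      = ll i u * (rr i u * rr i w * (rr i u)⁻¹) * (ll i u)⁻¹ := by rw [h2]; group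
    _ = _ := by group

/-- The words whose right transvection is in a subgroup. -/
def MW (i : ι) (K : Subgroup (MulAut (FreeGroup ι))) (hK : ∀ w, cc i w ∈ K) :
    Subgroup (FreeGroup ι) := K.comap (rr i)

lemma comm_mem_of (M : Subgroup (FreeGroup ι)) [hM : M.Normal] (h : ∀ j k, ⁅(of j : FreeGroup ι), of k⁆ ∈ M)
    (u v : FreeGroup ι) : ⁅u, v⁆ ∈ M := by
  have h1 := commute_of_gen (QuotientGroup.mk' M) (fun j k => by
    rw [← commutatorElement_eq_one_iff_commute, ← map_commutatorElement]
    exact (QuotientGroup.eq_one_iff _).2 (h j k)) u v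
  rw [← commutatorElement_eq_one_iff_commute, ← map_commutatorElement] at h1
  exact (QuotientGroup.eq_one_iff _).1 h1

lemma rr_mem (i : ι) (u v : FreeGroup ι) : rr i ⁅u, v⁆ ∈ HH ι := by
  have hn : ((HH ι).comap (rr i)).Normal := by
    refine ⟨fun w hw g => ?_⟩
    rw [Subgroup.mem_comap] at hw ⊢
    rw [rr_conj_cc]
    exact mul_mem (mul_mem (cc_mem i g) hw) (inv_mem (cc_mem i g))
  have := comm_mem_of ((HH ι).comap (rr i)) (fun j k => by
    rw [Subgroup.mem_comap]
    exact Subgroup.subset_closure (Or.inr ⟨i, j, k, rfl⟩)) u v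
  exact this

lemma ll_mem (i : ι) (u v : FreeGroup ι) : ll i ⁅u, v⁆ ∈ HH ι := by
  have e : ll i ⁅u, v⁆ = cc i ⁅u, v⁆ * (rr i ⁅u, v⁆)⁻¹ := by rw [cc_eq]; group
  rw [e]
  exact mul_mem (cc_mem _ _) (inv_mem (rr_mem _ _ _))

/-- The identity behind Magnus' theorem. -/
lemma idM {i p k : ι} (hip : i ≠ p) (hki : k ≠ i) (hkp : k ≠ p) :
    rr p (of i) * rr i ⁅of p, of k⁆ * (rr p (of i))⁻¹ *
        (cc p (of i) * cc i (of p) * ll i ⁅(of p)⁻¹, (of k)⁻¹⁆ * cc p (of k)) =
      cc p (of i) * cc i (of p) * cc i (of k) * rr p ⁅of k, of i⁆ := by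
  have hi : rr p (of i) * rr i ⁅of p, of k⁆ * (rr p (of i))⁻¹ =
      rr p (of i) * rr i ⁅of p, of k⁆ * rr p (of i)⁻¹ := by rw [map_inv]
  rw [hi]
  have hpi := hip.symm
  have hik := hki.symm
  have hpk := hkp.symm
  have a1 : rr i ⁅of p, of k⁆ (of i) = of i * (of p * of k * (of p)⁻¹ * (of k)⁻¹) := by
    rw [rr_self, kil_comm_of hpi hki, commutatorElement_def]
  have a2 : ll i ⁅(of p)⁻¹, (of k)⁻¹⁆ (of i) = ((of p)⁻¹ * (of k)⁻¹ * of p * of k)⁻¹ * of i := by
    rw [ll_self, commutatorElement_def]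
    simp only [map_mul, map_inv, kil_ne hpi, kil_ne hki, inv_inv]
  have a3 : rr p ⁅of k, of i⁆ (of p) = of p * (of k * of i * (of k)⁻¹ * (of i)⁻¹) := by
    rw [rr_self, kil_comm_of hkp hip, commutatorElement_def]
  have a4 : rr p (of i)⁻¹ (of p) = of p * (of i)⁻¹ := by
    rw [rr_self, map_inv, kil_ne hip]
  have b1 : ∀ l, l ≠ i → rr i ⁅of p, of k⁆ (of l) = of l := fun l hl => rr_ne hl _
  have b2 : ∀ l, l ≠ i → ll i ⁅(of p)⁻¹, (of k)⁻¹⁆ (of l) = of l := fun l hl => ll_ne hl _
  have b3 : ∀ l, l ≠ p → rr p ⁅of k, of i⁆ (of l) = of l := fun l hl => rr_ne hl _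
  have b4 : ∀ l, l ≠ p → rr p (of i)⁻¹ (of l) = of l := fun l hl => rr_ne hl _
  generalize rr i ⁅of p, of k⁆ = A1 at *
  generalize ll i ⁅(of p)⁻¹, (of k)⁻¹⁆ = A2 at *
  generalize rr p ⁅of k, of i⁆ = A3 at *
  generalize rr p (of i)⁻¹ = A4 at *
  apply aut_ext
  intro j
  simp only [MulAut.mul_apply]
  by_cases h1 : j = p
  · subst h1
    simp only [cc_self, cc_ne hip, cc_ne hpi, cc_ne hki, cc_ne hkp, rr_self, a1, a2, a3, a4,
      b1 _ hpi, b1 _ hki, b2 _ hpi, b2 _ hki, b3 _ hip, b3 _ hkp, b4 _ hip, b4 _ hkp,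
      rr_ne hip, rr_ne hkp, cc_ne hik,
      map_mul, map_inv, kil_ne hip, kil_ne hpi, kil_ne hki, kil_ne hkp, inv_inv]
    group
  · by_cases h2 : j = i
    · subst h2
      simp only [cc_self, cc_ne hip, cc_ne hpi, cc_ne hki, cc_ne hkp, rr_self, a1, a2, a3, a4,
        b1 _ hpi, b1 _ hki, b2 _ hpi, b2 _ hki, b3 _ hip, b3 _ hkp, b4 _ hip, b4 _ hkp,
        rr_ne hip, rr_ne hkp, cc_ne hik,
        map_mul, map_inv, kil_ne hip, kil_ne hpi, kil_ne hki, kil_ne hkp, inv_inv]
      group
    · simp only [cc_ne h1, cc_ne h2, rr_ne h1, b1 _ h2, b2 _ h2, b3 _ h1, b4 _ h1]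

lemma conj_closure' {G : Type} [Group G] {S : Set G} {x : G}
    (h1 : ∀ a ∈ S, x * a * x⁻¹ ∈ Subgroup.closure S) :
    ∀ a ∈ Subgroup.closure S, x * a * x⁻¹ ∈ Subgroup.closure S := conj_closure h1

lemma sp_conj (σ : SP ι) : ∀ a ∈ HH ι, toAut σ * a * (toAut σ)⁻¹ ∈ HH ι := by
  refine conj_closure' ?_
  rintro a (⟨i, j, rfl⟩ | ⟨i, j, k, rfl⟩)
  · have h := sp_cc (q := MonoidHom.id _) σ i (of j)
    simp only [MonoidHom.id_apply] at h
    rw [h]
    exact cc_mem _ _
  · have h := sp_rr (q := MonoidHom.id _) σ i ⁅of j, of k⁆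
    simp only [MonoidHom.id_apply] at h
    rcases h with h | h
    · rw [h, map_commutatorElement]
      exact rr_mem _ _ _
    · rw [h, map_commutatorElement]
      exact ll_mem _ _ _

lemma rr_conj (p r : ι) : ∀ a ∈ HH ι, rr p (of r) * a * (rr p (of r))⁻¹ ∈ HH ι := by
  by_cases hpr : r = p
  · subst hpr
    intro a ha
    rw [rr_of_self, one_mul, inv_one, mul_one]
    exact ha
  have key : ∀ j k : ι, k ≠ r → k ≠ p → p ≠ r → j = p →
      rr p (of r) * rr r ⁅of j, of k⁆ * (rr p (of r))⁻¹ ∈ HH ι := by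
    rintro j k hkr hkp hpr' rfl
    have h := idM hpr'.symm hkr hkp
    rw [← eq_mul_inv_iff_mul_eq] at h
    rw [h]
    refine mul_mem (mul_mem (mul_mem (mul_mem ?_ ?_) ?_) ?_) (inv_mem (mul_mem (mul_mem
      (mul_mem ?_ ?_) ?_) ?_))
    · exact cc_mem _ _
    · exact cc_mem _ _
    · exact cc_mem _ _
    · exact rr_mem _ _ _
    · exact cc_mem _ _
    · exact cc_mem _ _
    · exact ll_mem _ _ _
    · exact cc_mem _ _
  refine conj_closure' ?_
  rintro a (⟨i, j, rfl⟩ | ⟨i, j, k, rfl⟩)
  · by_cases hip : i = p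
    · subst hip
      have e : rr i (of r) * cc i (of j) * (rr i (of r))⁻¹ =
          cc i (of j) * rr i ⁅(of j)⁻¹, of r⁆ := by
        rw [cc_eq, commutatorElement_def]
        have h := ll_rr_comm i (of j) (of r)
        rw [← mul_assoc, ← h]
        simp only [map_mul, map_inv, inv_inv]
        group
      rw [e]
      exact mul_mem (cc_mem _ _) (rr_mem _ _ _)
    · by_cases hir : i = r
      · subst hir
        by_cases hjp : j = p
        · subst hjp
          have h := id5 hip
          rw [← eq_mul_inv_iff_mul_eq] at h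
          rw [mul_inv_eq_iff_eq_mul.2 (id5 hip)]
          exact mul_mem (cc_mem _ _) (cc_mem _ _)
        · by_cases hji : j = i
          · subst hji
            rw [cc_of_self, mul_one, mul_inv_cancel]
            exact one_mem _
          · have h := id4 hip (w := of j) (kil_ne hji) (kil_ne hjp)
            rw [mul_inv_eq_iff_eq_mul.2 h]
            have e : (of j : FreeGroup ι) * of i * (of j)⁻¹ * (of i)⁻¹ = ⁅of j, of i⁆ := rfl
            rw [e]
            exact mul_mem (cc_mem _ _) (rr_mem _ _ _)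
      · have hP : Pres i (rr p (of r)) := pres_rr hip (kil_ne (Ne.symm hir))
        rw [hP.cc]
        exact cc_mem _ _
  · by_cases hip : i = p
    · subst hip
      rw [← map_inv, ← map_mul, ← map_mul, ← MulAut.conj_apply, map_commutatorElement]
      exact rr_mem _ _ _
    · by_cases hir : i = r
      · subst hir
        by_cases hji : j = i
        · subst hji
          have : rr j ⁅of j, of k⁆ = 1 := by
            rw [map_commutatorElement, rr_of_self, commutatorElement_one_left]
          rw [this, mul_one, mul_inv_cancel]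
          exact one_mem _
        by_cases hki : k = i
        · subst hki
          have : rr k ⁅of j, of k⁆ = 1 := by
            rw [map_commutatorElement, rr_of_self, commutatorElement_one_right]
          rw [this, mul_one, mul_inv_cancel]
          exact one_mem _
        by_cases hjp : j = p
        · by_cases hkp : k = p
          · rw [hjp, hkp, commutatorElement_self, map_one, mul_one, mul_inv_cancel]
            exact one_mem _
          · exact key j k hki hkp (Ne.symm hip) hjp
        · by_cases hkp : k = p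
          · have h := key k j hji hjp (Ne.symm hip) hkp
            have e : (⁅of j, of k⁆ : FreeGroup ι) = ⁅of k, of j⁆⁻¹ :=
              (commutatorElement_inv _ _).symm
            rw [e, map_inv]
            have e2 : ∀ a b : MulAut (FreeGroup ι), a * b⁻¹ * a⁻¹ = (a * b * a⁻¹)⁻¹ := by
              intro a b; group
            rw [e2]
            exact inv_mem h
          · have h := id3 hip (w := ⁅of j, of k⁆) (kil_comm_of hji hki) (kil_comm_of hjp hkp)
            rw [mul_inv_eq_iff_eq_mul.2 h]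
            have e : (of i : FreeGroup ι) * ⁅of j, of k⁆⁻¹ * (of i)⁻¹ =
                ⁅of i * of k * (of i)⁻¹, of i * of j * (of i)⁻¹⁆ := by
              simp only [commutatorElement_def]; group
            rw [e]
            exact mul_mem (rr_mem _ _ _) (rr_mem _ _ _)
      · have hP : Pres i (rr p (of r)) := pres_rr hip (kil_ne (Ne.symm hir))
        rw [hP.rr, map_commutatorElement]
        exact rr_mem _ _ _

section

variable [Fintype ι]

lemma rr_both' (p r : ι) : rr p (of r) ∈ Subgroup.normalizer (HH ι : Set (MulAut (FreeGroup ι))) := by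
  by_cases hpr : p = r
  · subst hpr
    rw [rr_of_self]
    exact one_mem _
  · have h1 := rr_conj p r
    refine mem_norm_of_both h1 ?_
    intro a ha
    have s1 := sp_conj (rhoP r)
    have s2 := sp_conj (rhoP r)⁻¹
    rw [map_inv, inv_inv] at s2
    have e := rho_rr hpr
    have e2 : (rr p (of r))⁻¹ * a * rr p (of r) =
        toAut (rhoP r) * (rr p (of r) * ((toAut (rhoP r))⁻¹ * a *
          toAut (rhoP r)) * (rr p (of r))⁻¹) * (toAut (rhoP r))⁻¹ := by
      generalize rr p (of r) = x at e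
      generalize toAut (rhoP r) = s at e
      calc x⁻¹ * a * x = (s * x * s⁻¹) * a * (s * x * s⁻¹)⁻¹ := by rw [e, inv_inv]
        _ = _ := by group
    rw [e2]
    exact s1 _ (h1 _ (s2 _ ha))

lemma all_norm' (x : MulAut (FreeGroup ι)) :
    x ∈ Subgroup.normalizer (HH ι : Set (MulAut (FreeGroup ι))) := by
  have hr : ∀ i w, rr i w ∈ Subgroup.normalizer (HH ι : Set (MulAut (FreeGroup ι))) := by
    intro i w
    induction w using FreeGroup.induction_on with
    | C1 => rw [map_one]; exact one_mem _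
    | of j => exact rr_both' i j
    | inv_of j ih =>
      rw [map_inv]
      exact inv_mem ih
    | mul a b ha hb => rw [map_mul]; exact mul_mem ha hb
  have h1 : Subgroup.normalizer (HH ι : Set (MulAut (FreeGroup ι))) = ⊤ := by
    apply gen_top
    · intro σ
      have s1 := sp_conj σ
      have s2 := sp_conj σ⁻¹
      rw [map_inv, inv_inv] at s2
      exact mem_norm_of_both s1 s2
    · exact hr
    · intro i w
      have e : ll i w = cc i w * (rr i w)⁻¹ := by rw [cc_eq]; group
      rw [e]
      exact mul_mem (Subgroup.le_normalizer (cc_mem _ _)) (inv_mem (hr i w))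
  rw [h1]
  trivial

instance HH_normal : (HH ι).Normal := by
  refine ⟨fun n hn g => ?_⟩
  have h1 := all_norm' g
  rw [Subgroup.mem_normalizer_iff] at h1
  exact (h1 _).1 hn

lemma HH_le_IA : HH ι ≤ IA (FreeGroup ι) := by
  refine (Subgroup.closure_le _).2 ?_
  rintro a (⟨i, j, rfl⟩ | ⟨i, j, k, rfl⟩)
  · exact cc_mem_IA i (of j)
  · exact rr_comm_mem_IA i (of j) (of k)

lemma HH_nice : Nice (HH ι) where
  ccm := cc_mem
  rrm := rr_mem
  iam := HH_le_IA

/-- **Magnus' theorem.** -/
theorem IA_eq : IA (FreeGroup ι) = HH ι := le_antisymm (IA_le HH_nice) HH_le_IA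

end

end Pool.Agent.H12.SOL
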