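import Pool.Agent.H12.SOL.M1

set_option autoImplicit false
set_option linter.unusedSectionVars false
set_option linter.unusedSimpArgs false
set_option linter.unusedVariables false

/-!
Images of `IA_n` in groups with a normal subgroup with abelian quotient: centralizers.
-/

namespace Pool.Agent.H12.SOL

open Pool.Agent.Helper460_OutF Pool.Agent.Helper460_CSP
open FreeGroup (of)
open scoped commutatorElement

variable {ι : Type} [DecidableEq ι]

lemma Pres.mul {i : ι} {α β : MulAut (FreeGroup ι)} (ha : Pres i α) (hb : Pres i β) :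
    Pres i (α * β) := by
  refine ⟨by rw [MulAut.mul_apply, hb.1, ha.1], fun j hj => ?_⟩
  rw [MulAut.mul_apply, ha.kil, hb.2 j hj]

lemma Pres.inv {i : ι} {α : MulAut (FreeGroup ι)} (ha : Pres i α) : Pres i α⁻¹ := by
  refine ⟨?_, fun j hj => ?_⟩
  · have h := congrArg (fun x => α⁻¹ x) ha.1
    simp only [MulAut.inv_apply_self] at h
    exact h.symm
  · have h := ha.kil (α⁻¹ (of j))
    rw [MulAut.apply_inv_self, kil_ne hj] at h
    have h2 := congrArg (fun x => α⁻¹ x) h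
    simp only [MulAut.inv_apply_self] at h2
    exact h2.symm

variable [Fintype ι]

lemma rr_mem_IA {i : ι} {w : FreeGroup ι} (hw : w ∈ commutator (FreeGroup ι)) :
    rr i w ∈ IA (FreeGroup ι) := by
  have : commutator (FreeGroup ι) ≤ (IA (FreeGroup ι)).comap (rr i) := by
    rw [commutator_def, Subgroup.commutator_le]
    intro u _ v _
    exact rr_comm_mem_IA i u v
  exact this hw

lemma ll_mem_IA {i : ι} {w : FreeGroup ι} (hw : w ∈ commutator (FreeGroup ι)) :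
    ll i w ∈ IA (FreeGroup ι) := by
  have e : ll i w = cc i w * (rr i w)⁻¹ := by rw [cc_eq]; group
  rw [e]
  exact mul_mem (cc_mem_IA _ _) (inv_mem (rr_mem_IA hw))

lemma comm_mem (u v : FreeGroup ι) : ⁅u, v⁆ ∈ commutator (FreeGroup ι) :=
  Subgroup.commutator_mem_commutator (Subgroup.mem_top _) (Subgroup.mem_top _)

lemma aut_comm {w : FreeGroup ι} (σ : MulAut (FreeGroup ι)) (hw : w ∈ commutator (FreeGroup ι)) :
    σ w ∈ commutator (FreeGroup ι) := by
  have : commutator (FreeGroup ι) ≤ (commutator (FreeGroup ι)).comap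
      (σ : FreeGroup ι →* FreeGroup ι) := by
    rw [commutator_def, Subgroup.commutator_le]
    intro u _ v _
    rw [Subgroup.mem_comap, map_commutatorElement]
    exact comm_mem _ _
  exact this hw

variable {E A : Type*} [Group E] [CommGroup A]

/-- A homomorphism `π` from `IA_n` to `E` (defined on all automorphisms, but used on `IA_n` only),
such that all commutators of elements of the image are in `V`, and a homomorphism `χ` to an abelian
group such that `π a` has no nontrivial fixed points in `V` if `χ a ≠ 1`. -/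
structure Dat (π : MulAut (FreeGroup ι) → E) (χ : MulAut (FreeGroup ι) → A) (V : Subgroup E) :
    Prop where
  pm : ∀ a ∈ IA (FreeGroup ι), ∀ b ∈ IA (FreeGroup ι), π (a * b) = π a * π b
  cm : ∀ a ∈ IA (FreeGroup ι), ∀ b ∈ IA (FreeGroup ι), χ (a * b) = χ a * χ b
  comm : ∀ a ∈ IA (FreeGroup ι), ∀ b ∈ IA (FreeGroup ι), ⁅π a, π b⁆ ∈ V
  free : ∀ a ∈ IA (FreeGroup ι), χ a ≠ 1 → ∀ v ∈ V, Commute (π a) v → v = 1

/-- The conclusion. -/
def Res (π : MulAut (FreeGroup ι) → E) (χ : MulAut (FreeGroup ι) → A) : Prop :=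
  ∃ g ∈ IA (FreeGroup ι), χ g ≠ 1 ∧ ∀ h ∈ IA (FreeGroup ι), Commute (π h) (π g)

/-- Conjugation of the argument. -/
def tw {X : Type*} (σ : MulAut (FreeGroup ι)) (f : MulAut (FreeGroup ι) → X) :
    MulAut (FreeGroup ι) → X := fun a => f (σ * a * σ⁻¹)

lemma conj_IA (σ : MulAut (FreeGroup ι)) {a : MulAut (FreeGroup ι)} (ha : a ∈ IA (FreeGroup ι)) :
    σ * a * σ⁻¹ ∈ IA (FreeGroup ι) := (IA_normal (FreeGroup ι)).conj_mem a ha σ

lemma tw_tw {X : Type*} (σ τ : MulAut (FreeGroup ι)) (f : MulAut (FreeGroup ι) → X) :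
    tw τ (tw σ f) = tw (σ * τ) f := by
  funext a
  have e : σ * (τ * a * τ⁻¹) * σ⁻¹ = σ * τ * a * (σ * τ)⁻¹ := by group
  show f (σ * (τ * a * τ⁻¹) * σ⁻¹) = f (σ * τ * a * (σ * τ)⁻¹)
  rw [e]

lemma tw_one {X : Type*} (f : MulAut (FreeGroup ι) → X) : tw 1 f = f := by
  funext a
  unfold tw
  rw [one_mul, inv_one, mul_one]

variable {π : MulAut (FreeGroup ι) → E} {χ : MulAut (FreeGroup ι) → A} {V : Subgroup E}

lemma Dat.tw (hD : Dat π χ V) (σ : MulAut (FreeGroup ι)) :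
    Dat (SOL.tw σ π) (SOL.tw σ χ) V where
  pm a ha b hb := by
    have e : σ * (a * b) * σ⁻¹ = (σ * a * σ⁻¹) * (σ * b * σ⁻¹) := by group
    show π _ = π _ * π _
    rw [e]
    exact hD.pm _ (conj_IA σ ha) _ (conj_IA σ hb)
  cm a ha b hb := by
    have e : σ * (a * b) * σ⁻¹ = (σ * a * σ⁻¹) * (σ * b * σ⁻¹) := by group
    show χ _ = χ _ * χ _
    rw [e]
    exact hD.cm _ (conj_IA σ ha) _ (conj_IA σ hb)
  comm a ha b hb := hD.comm _ (conj_IA σ ha) _ (conj_IA σ hb)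
  free a ha h := hD.free _ (conj_IA σ ha) h

lemma Res.of_tw {σ : MulAut (FreeGroup ι)} (h : Res (tw σ π) (tw σ χ)) : Res π χ := by
  obtain ⟨g, hg, h1, h2⟩ := h
  refine ⟨σ * g * σ⁻¹, conj_IA σ hg, h1, fun h hh => ?_⟩
  have h3 := h2 (σ⁻¹ * h * σ) (by simpa using conj_IA σ⁻¹ hh)
  have e : σ * (σ⁻¹ * h * σ) * σ⁻¹ = h := by group
  unfold tw at h3
  rwa [e] at h3

namespace Dat

variable (hD : Dat π χ V)

include hD

lemma p1 : π 1 = 1 := by
  have := hD.pm 1 (one_mem _) 1 (one_mem _)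
  rw [mul_one] at this
  exact mul_eq_left.1 this.symm

lemma c1 : χ 1 = 1 := by
  have := hD.cm 1 (one_mem _) 1 (one_mem _)
  rw [mul_one] at this
  exact mul_eq_left.1 this.symm

lemma pi {a : MulAut (FreeGroup ι)} (ha : a ∈ IA (FreeGroup ι)) : π a⁻¹ = (π a)⁻¹ := by
  have := hD.pm a ha a⁻¹ (inv_mem ha)
  rw [mul_inv_cancel, hD.p1] at this
  exact eq_inv_of_mul_eq_one_right this.symm

lemma ci {a : MulAut (FreeGroup ι)} (ha : a ∈ IA (FreeGroup ι)) : χ a⁻¹ = (χ a)⁻¹ := by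
  have := hD.cm a ha a⁻¹ (inv_mem ha)
  rw [mul_inv_cancel, hD.c1] at this
  exact eq_inv_of_mul_eq_one_right this.symm

lemma cconj {a b : MulAut (FreeGroup ι)} (ha : a ∈ IA (FreeGroup ι)) (hb : b ∈ IA (FreeGroup ι)) :
    χ (a * b * a⁻¹) = χ b := by
  rw [hD.cm _ (mul_mem ha hb) _ (inv_mem ha), hD.cm _ ha _ hb, hD.ci ha, mul_comm (χ a),
    mul_inv_cancel_right]

lemma pcomm {a b : MulAut (FreeGroup ι)} (ha : a ∈ IA (FreeGroup ι)) (hb : b ∈ IA (FreeGroup ι))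
    (h : a * b = b * a) : Commute (π a) (π b) := by
  show π a * π b = π b * π a
  rw [← hD.pm _ ha _ hb, ← hD.pm _ hb _ ha, h]

/-- Two elements commuting with an element without fixed points commute. -/
lemma C1 {g a b : MulAut (FreeGroup ι)} (hg : g ∈ IA (FreeGroup ι)) (hχ : χ g ≠ 1)
    (ha : a ∈ IA (FreeGroup ι)) (hb : b ∈ IA (FreeGroup ι)) (h1 : Commute (π a) (π g))
    (h2 : Commute (π b) (π g)) : Commute (π a) (π b) := by
  rw [← commutatorElement_eq_one_iff_commute]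
  refine hD.free g hg hχ _ (hD.comm a ha b hb) ?_
  rw [commutatorElement_def]
  exact ((h1.symm.mul_right h2.symm).mul_right h1.symm.inv_right).mul_right h2.symm.inv_right

lemma C3 {g a : MulAut (FreeGroup ι)} (hg : g ∈ IA (FreeGroup ι)) (hχ : χ g ≠ 1)
    (ha : a ∈ IA (FreeGroup ι)) (h1 : Commute (π (a * g * a⁻¹)) (π g)) : Commute (π a) (π g) := by
  rw [hD.pm _ (mul_mem ha hg) _ (inv_mem ha), hD.pm _ ha _ hg, hD.pi ha] at h1
  rw [← commutatorElement_eq_one_iff_commute]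
  refine hD.free g hg hχ _ (hD.comm a ha g hg) ?_
  rw [commutatorElement_def]
  exact h1.symm.mul_right (Commute.refl _).inv_right

/-- The index `i` is good. -/
def _root_.Pool.Agent.H12.SOL.Good (χ : MulAut (FreeGroup ι) → A) (i : ι) : Prop :=
  ∃ w ∈ commutator (FreeGroup ι), χ (rr i w) ≠ 1

lemma cc_comm_one (i : ι) {w : FreeGroup ι} (hw : w ∈ commutator (FreeGroup ι)) :
    χ (cc i w) = 1 := by
  let f : FreeGroup ι →* A :=
    { toFun := fun w => χ (cc i w)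
      map_one' := by rw [map_one]; exact hD.c1
      map_mul' := fun a b => by
        rw [map_mul]; exact hD.cm _ (cc_mem_IA _ _) _ (cc_mem_IA _ _) }
  have : commutator (FreeGroup ι) ≤ f.ker := by
    rw [commutator_def, Subgroup.commutator_le]
    intro u _ v _
    rw [MonoidHom.mem_ker, map_commutatorElement]
    exact commutatorElement_eq_one_iff_commute.2 (Commute.all _ _)
  exact this hw

lemma cc_mul (i : ι) (u v : FreeGroup ι) : χ (cc i (u * v)) = χ (cc i u) * χ (cc i v) := by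
  rw [map_mul]; exact hD.cm _ (cc_mem_IA _ _) _ (cc_mem_IA _ _)

lemma cc_inv (i : ι) (u : FreeGroup ι) : χ (cc i u⁻¹) = (χ (cc i u))⁻¹ := by
  rw [map_inv]; exact hD.ci (cc_mem_IA _ _)

lemma rr_mul (i : ι) {u v : FreeGroup ι} (hu : u ∈ commutator (FreeGroup ι))
    (hv : v ∈ commutator (FreeGroup ι)) : χ (rr i (u * v)) = χ (rr i u) * χ (rr i v) := by
  rw [map_mul]; exact hD.cm _ (rr_mem_IA hu) _ (rr_mem_IA hv)

lemma rr_inv (i : ι) {u : FreeGroup ι} (hu : u ∈ commutator (FreeGroup ι)) :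
    χ (rr i u⁻¹) = (χ (rr i u))⁻¹ := by
  rw [map_inv]; exact hD.ci (rr_mem_IA hu)

lemma rr_cj (i : ι) (x : FreeGroup ι) {u : FreeGroup ι} (hu : u ∈ commutator (FreeGroup ι)) :
    χ (rr i (x * u * x⁻¹)) = χ (rr i u) := by
  rw [rr_conj_cc]; exact hD.cconj (cc_mem_IA _ _) (rr_mem_IA hu)

lemma rr_cj' (i : ι) (x : FreeGroup ι) {u : FreeGroup ι} (hu : u ∈ commutator (FreeGroup ι)) :
    χ (rr i (x⁻¹ * u * x)) = χ (rr i u) := by
  have := hD.rr_cj i x⁻¹ hu
  rwa [inv_inv] at this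

lemma ll_eq (i : ι) {w : FreeGroup ι} (hw : w ∈ commutator (FreeGroup ι)) :
    χ (ll i w) = (χ (rr i w))⁻¹ := by
  have h := hD.cc_comm_one i hw
  rw [cc_eq, hD.cm _ (ll_mem_IA hw) _ (rr_mem_IA hw)] at h
  exact eq_inv_of_mul_eq_one_left h

lemma swap (i : ι) (u v : FreeGroup ι) : χ (rr i ⁅v, u⁆) = (χ (rr i ⁅u, v⁆))⁻¹ := by
  rw [← commutatorElement_inv]; exact hD.rr_inv i (comm_mem _ _)

lemma inv_left (i : ι) (u v : FreeGroup ι) : χ (rr i ⁅u⁻¹, v⁆) = (χ (rr i ⁅u, v⁆))⁻¹ := by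
  have e : (⁅u⁻¹, v⁆ : FreeGroup ι) = u⁻¹ * ⁅v, u⁆ * u := by
    simp only [commutatorElement_def]; group
  rw [e, hD.rr_cj' i u (comm_mem _ _), hD.swap]

lemma inv_right (i : ι) (u v : FreeGroup ι) : χ (rr i ⁅u, v⁻¹⁆) = (χ (rr i ⁅u, v⁆))⁻¹ := by
  rw [hD.swap, hD.inv_left, ← hD.swap]

lemma mul_left (i : ι) (u u' v : FreeGroup ι) :
    χ (rr i ⁅u * u', v⁆) = χ (rr i ⁅u, v⁆) * χ (rr i ⁅u', v⁆) := by
  have e : (⁅u * u', v⁆ : FreeGroup ι) = (u * ⁅u', v⁆ * u⁻¹) * ⁅u, v⁆ := by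
    simp only [commutatorElement_def]; group
  rw [e, hD.rr_mul i ((commutator (FreeGroup ι)).normal_of_characteristic.conj_mem _
    (comm_mem _ _) _) (comm_mem _ _), hD.rr_cj i u (comm_mem _ _), mul_comm]

/-- Elements of the centralizer attached to a good index. -/
lemma L1 {i : ι} {w w' : FreeGroup ι} (hw : w ∈ commutator (FreeGroup ι)) (hχ : χ (rr i w) ≠ 1)
    (hw' : w' ∈ commutator (FreeGroup ι)) : Commute (π (ll i w')) (π (rr i w)) :=
  hD.pcomm (ll_mem_IA hw') (rr_mem_IA hw) (ll_rr_comm _ _ _)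

lemma L2 {i : ι} {w w' : FreeGroup ι} (hw : w ∈ commutator (FreeGroup ι)) (hχ : χ (rr i w) ≠ 1)
    (hw' : w' ∈ commutator (FreeGroup ι)) : Commute (π (rr i w')) (π (rr i w)) := by
  have h1 : χ (ll i w) ≠ 1 := by
    rw [hD.ll_eq i hw]
    exact fun h => hχ (inv_eq_one.1 h)
  exact hD.C1 (ll_mem_IA hw) h1 (rr_mem_IA hw') (rr_mem_IA hw)
    (hD.pcomm (rr_mem_IA hw') (ll_mem_IA hw) (ll_rr_comm _ _ _).symm)
    (hD.pcomm (rr_mem_IA hw) (ll_mem_IA hw) (ll_rr_comm _ _ _).symm)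

lemma L3 {i : ι} {w : FreeGroup ι} (hw : w ∈ commutator (FreeGroup ι)) (hχ : χ (rr i w) ≠ 1)
    {a : MulAut (FreeGroup ι)} (ha : a ∈ IA (FreeGroup ι)) {w' : FreeGroup ι}
    (hw' : w' ∈ commutator (FreeGroup ι)) (h : a * rr i w * a⁻¹ = rr i w') :
    Commute (π a) (π (rr i w)) := by
  refine hD.C3 (rr_mem_IA hw) hχ ha ?_
  rw [h]
  exact hD.L2 hw hχ hw'

lemma LP {i : ι} {w : FreeGroup ι} (hw : w ∈ commutator (FreeGroup ι)) (hχ : χ (rr i w) ≠ 1)
    {a : MulAut (FreeGroup ι)} (ha : a ∈ IA (FreeGroup ι)) (hP : Pres i a) :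
    Commute (π a) (π (rr i w)) := hD.L3 hw hχ ha (aut_comm a hw) (hP.rr w)

/-- Elements `x_j ↦ ...` with words without `x_i` -/
lemma L4 {i : ι} {w : FreeGroup ι} (hw : w ∈ commutator (FreeGroup ι)) (hχ : χ (rr i w) ≠ 1)
    {j : ι} {u : FreeGroup ι} (hu : kil i u = u) :
    Commute (π (cc j u)) (π (rr i w)) := by
  by_cases hij : i = j
  · subst hij
    refine hD.L3 hw hχ (cc_mem_IA _ _) (w' := u * w * u⁻¹)
      ((commutator (FreeGroup ι)).normal_of_characteristic.conj_mem _ hw _) ?_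
    rw [rr_conj_cc]
  · exact hD.LP hw hχ (cc_mem_IA _ _) (pres_cc hij hu)

lemma L4' {i : ι} {w : FreeGroup ι} (hw : w ∈ commutator (FreeGroup ι)) (hχ : χ (rr i w) ≠ 1)
    (u : FreeGroup ι) : Commute (π (cc i u)) (π (rr i w)) := by
  refine hD.L3 hw hχ (cc_mem_IA _ _) (w' := u * w * u⁻¹)
    ((commutator (FreeGroup ι)).normal_of_characteristic.conj_mem _ hw _) ?_
  rw [rr_conj_cc]

lemma L5 {i : ι} {w : FreeGroup ι} (hw : w ∈ commutator (FreeGroup ι)) (hχ : χ (rr i w) ≠ 1)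
    {j : ι} {u : FreeGroup ι} (hu' : u ∈ commutator (FreeGroup ι)) (hu : kil i u = u ∨ i = j) :
    Commute (π (rr j u)) (π (rr i w)) := by
  by_cases hij : i = j
  · subst hij
    exact hD.L2 hw hχ hu'
  · exact hD.LP hw hχ (rr_mem_IA hu') (pres_rr hij (hu.resolve_right hij))

/-- Goodness is witnessed by a commutator of two generators. -/
lemma wit {i : ι} (h : Good χ i) : ∃ k l, k ≠ i ∧ l ≠ i ∧ χ (rr i ⁅of k, of l⁆) ≠ 1 := by
  by_contra hcon
  push Not at hcon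
  let M : Subgroup (FreeGroup ι) :=
    { carrier := {w | w ∈ commutator (FreeGroup ι) ∧ χ (rr i w) = 1}
      mul_mem' := fun {a b} ha hb => ⟨mul_mem ha.1 hb.1, by rw [hD.rr_mul i ha.1 hb.1, ha.2, hb.2,
        mul_one]⟩
      one_mem' := ⟨one_mem _, by rw [map_one]; exact hD.c1⟩
      inv_mem' := fun {a} ha => ⟨inv_mem ha.1, by rw [hD.rr_inv i ha.1, ha.2, inv_one]⟩ }
  have hM : M.Normal := ⟨fun a ha g =>
    ⟨(commutator (FreeGroup ι)).normal_of_characteristic.conj_mem _ ha.1 _,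
      by rw [hD.rr_cj i g ha.1, ha.2]⟩⟩
  have h1 : ∀ j k, ⁅(of j : FreeGroup ι), of k⁆ ∈ M := by
    intro j k
    refine ⟨comm_mem _ _, ?_⟩
    by_cases hj : j = i
    · rw [hj, map_commutatorElement, rr_of_self, commutatorElement_one_left]; exact hD.c1
    by_cases hk : k = i
    · rw [hk, map_commutatorElement, rr_of_self, commutatorElement_one_right]; exact hD.c1
    exact hcon j k hj hk
  obtain ⟨w, hw, hχ⟩ := h
  have h2 : commutator (FreeGroup ι) ≤ M := by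
    rw [commutator_def, Subgroup.commutator_le]
    intro u _ v _
    exact comm_mem_of M h1 u v
  exact hχ (h2 hw).2

end Dat

end Pool.Agent.H12.SOL
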